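import Pool.Agent.Helper58.PB.StS
import Pool.Agent.Helper23.GK.StG

/-!
# Project PB, module WEX: the weights as trigonometric polynomials
-/

set_option autoImplicit false

namespace Pool.Agent.Helper90.PB

open Finset ArithmeticFunction
open Pool.Agent.Helper58.PB
open Pool.Agent.Helper48.BK (ex)
open Pool.Agent.Helper23.GK (cR)
open Pool.Agent.Helper23.MV (PCh ta)

private theorem ex_int_WEX (h : ℤ) : ex (h : ℝ) = 1 := by
  unfold ex
  rw [Complex.exp_eq_one_iff]
  exact ⟨h, by push_cast; ring⟩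

private theorem ex_add_WEX (a b : ℝ) : ex (a + b) = ex a * ex b := by
  unfold ex
  rw [← Complex.exp_add]
  congr 1
  push_cast
  ring

private theorem ex_nnat_WEX (a : ℝ) (k : ℕ) : ex (-(a + k)) = ex (-a) := by
  have h := ex_int_WEX (-(k : ℤ))
  rw [Int.cast_neg, Int.cast_natCast] at h
  rw [neg_add, ex_add_WEX, h, mul_one]

private theorem conj_ex_WEX (a : ℝ) : (starRingEnd ℂ) (ex a) = ex (-a) := by
  unfold ex
  rw [← Complex.exp_conj]
  congr 1
  rw [map_mul, map_mul, map_mul, Complex.conj_I, Complex.conj_ofReal, Complex.conj_ofReal,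
    Complex.ofReal_neg]
  have h2 : (starRingEnd ℂ) (2 : ℂ) = 2 := by
    exact_mod_cast Complex.conj_ofReal 2
  rw [h2]
  ring

/-- the residues modulo `R s` -/
private theorem crt_WEX (R s : ℕ) (hR : 0 < R) (hs : 0 < s) (h : Nat.Coprime R s) (f : ℕ → ℂ)
    (hf : ∀ b, f (b % (R * s)) = f b) :
    ∑ b ∈ (range (R * s)).filter (fun b => Nat.Coprime b (R * s)), f b =
      ∑ b₁ ∈ (range R).filter (fun b => Nat.Coprime b R),
        ∑ b₂ ∈ (range s).filter (fun b => Nat.Coprime b s), f (b₁ * s + b₂ * R) := by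
  have hm : 0 < R * s := Nat.mul_pos hR hs
  have hinj : Set.InjOn (fun p : ℕ × ℕ => (p.1 * s + p.2 * R) % (R * s))
      (((range R).filter (fun b => Nat.Coprime b R) ×ˢ
        (range s).filter (fun b => Nat.Coprime b s) : Finset (ℕ × ℕ)) : Set (ℕ × ℕ)) := by
    rintro ⟨a, b⟩ hab ⟨a', b'⟩ hab' he
    rw [Finset.mem_coe, Finset.mem_product, Finset.mem_filter, Finset.mem_filter,
      Finset.mem_range, Finset.mem_range] at hab hab'
    have he' : a * s + b * R ≡ a' * s + b' * R [MOD R * s] := he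
    have e1 : a * s ≡ a' * s [MOD R] := by
      have h1 := he'.of_mul_right s
      unfold Nat.ModEq at h1 ⊢
      rwa [Nat.add_mul_mod_self_right, Nat.add_mul_mod_self_right] at h1
    have e2 : b * R ≡ b' * R [MOD s] := by
      have h1 := he'.of_mul_left R
      unfold Nat.ModEq at h1 ⊢
      rwa [add_comm, Nat.add_mul_mod_self_right, add_comm, Nat.add_mul_mod_self_right] at h1
    have e3 := Nat.ModEq.cancel_right_of_coprime (by exact h) e1
    have e4 := Nat.ModEq.cancel_right_of_coprime (by exact h.symm) e2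
    rw [Prod.mk.injEq]
    exact ⟨e3.eq_of_lt_of_lt hab.1.1 hab'.1.1, e4.eq_of_lt_of_lt hab.2.1 hab'.2.1⟩
  have hU : ∀ n : ℕ, ((range n).filter (fun b => Nat.Coprime b n)).card = Nat.totient n := by
    intro n
    rw [Nat.totient_eq_card_coprime]
    congr 1
    ext b
    rw [Finset.mem_filter, Finset.mem_filter, Nat.coprime_comm]
  have himg : ((range R).filter (fun b => Nat.Coprime b R) ×ˢ
      (range s).filter (fun b => Nat.Coprime b s)).image
        (fun p : ℕ × ℕ => (p.1 * s + p.2 * R) % (R * s)) =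
      (range (R * s)).filter (fun b => Nat.Coprime b (R * s)) := by
    refine Finset.eq_of_subset_of_card_le ?_ ?_
    · intro x hx
      rw [Finset.mem_image] at hx
      obtain ⟨⟨a, b⟩, hab, rfl⟩ := hx
      rw [Finset.mem_product, Finset.mem_filter, Finset.mem_filter] at hab
      rw [Finset.mem_filter, Finset.mem_range]
      refine ⟨Nat.mod_lt _ hm, ?_⟩
      show Nat.gcd ((a * s + b * R) % (R * s)) (R * s) = 1
      rw [(Nat.mod_modEq (a * s + b * R) (R * s)).gcd_eq]
      apply Nat.Coprime.mul_right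
      · rw [Nat.coprime_add_mul_right_left]
        exact Nat.Coprime.mul_left hab.1.2 h.symm
      · rw [add_comm, Nat.coprime_add_mul_right_left]
        exact Nat.Coprime.mul_left hab.2.2 h
    · rw [Finset.card_image_of_injOn hinj, Finset.card_product, hU, hU, hU, Nat.totient_mul h]
  rw [← himg, Finset.sum_image hinj, ← Finset.sum_product']
  exact Finset.sum_congr rfl fun p _ => hf _

private theorem ev_mod_WEX (c : PCh) (m : ℕ) (hm : c.r ∣ m) (b : ℕ) :
    c.ev (b % m) = c.ev b := by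
  unfold PCh.ev
  congr 1
  rw [ZMod.natCast_eq_natCast_iff]
  exact (Nat.mod_modEq b m).of_dvd hm

private theorem ev_crt_WEX (c : PCh) (s a b : ℕ) :
    c.ev (a * s + b * c.r) = c.ev a * c.ev s := by
  unfold PCh.ev
  rw [← map_mul, ← Nat.cast_mul]
  congr 1
  rw [ZMod.natCast_eq_natCast_iff]
  unfold Nat.ModEq
  rw [Nat.add_mul_mod_self_right]

private theorem mod_real_WEX (m : ℕ) (hm : 0 < m) (b N : ℕ) :
    (b : ℝ) * N / m = ((b % m : ℕ) : ℝ) * N / m + ((b / m * N : ℕ) : ℝ) := by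
  have h1 : ((b % m : ℕ) : ℝ) + (m : ℝ) * ((b / m : ℕ) : ℝ) = (b : ℝ) := by
    exact_mod_cast Nat.mod_add_div b m
  have hm0 : (m : ℝ) ≠ 0 := by exact_mod_cast hm.ne'
  rw [Nat.cast_mul, ← h1]
  field_simp

/-- conjugate Ramanujan sum -/
private theorem ram_WEX (hR : Pool.Agent.Helper23.GK.StRam) (s N : ℕ) (hs : 1 ≤ s) :
    ∑ b ∈ (range s).filter (fun b => Nat.Coprime b s), ex (-((b : ℝ) * N / s)) =
      ((cR s N : ℤ) : ℂ) := by
  have h1 := hR.1 s (-(N : ℤ)) hs
  have h2 : cR s (-(N : ℤ)) = cR s N := by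
    unfold cR
    congr 1
    ext d
    rw [Finset.mem_filter, Finset.mem_filter, dvd_neg]
  rw [h2] at h1
  rw [h1]
  refine Finset.sum_congr rfl fun b _ => ?_
  congr 1
  push_cast
  ring

private theorem abs_WEX (c : PCh) (s : ℕ) (h : Nat.Coprime s c.r) :
    c.ev s * (starRingEnd ℂ) (c.ev s) = 1 := by
  have h1 : IsUnit ((s : ℕ) : ZMod c.r) := by
    rw [ZMod.isUnit_iff_coprime]
    exact h
  have h2 : ‖c.ev s‖ = 1 := by
    unfold PCh.ev
    obtain ⟨u, hu⟩ := h1
    rw [← hu]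
    exact DirichletCharacter.unit_norm_eq_one c.χ u
  rw [Complex.mul_conj, Complex.normSq_eq_norm_sq, h2]
  simp

/-- the sum of `c(a) e(-an/r)` as a Gauss sum -/
private theorem gs_WEX (c : PCh) (n : ℕ) :
    ∑ a ∈ (range c.r).filter (fun a => Nat.Coprime a c.r), c.ev a * ex (-((a : ℝ) * n / c.r)) =
      gaussSum c.χ ((ZMod.stdAddChar (N := c.r)).mulShift (-(n : ZMod c.r))) := by
  have hr : 0 < c.r := Nat.pos_of_ne_zero c.hr
  have h1 : ∑ a ∈ (range c.r).filter (fun a => Nat.Coprime a c.r),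
      c.ev a * ex (-((a : ℝ) * n / c.r)) =
      ∑ a ∈ range c.r, c.ev a * ex (-((a : ℝ) * n / c.r)) := by
    refine Finset.sum_subset (Finset.filter_subset _ _) fun a ha hna => ?_
    have hnc : ¬ Nat.Coprime a c.r := fun h => hna (Finset.mem_filter.2 ⟨ha, h⟩)
    have h0 : c.ev a = 0 := by
      unfold PCh.ev
      exact MulChar.map_nonunit _ (fun hu => hnc ((ZMod.isUnit_iff_coprime a c.r).1 hu))
    rw [h0, zero_mul]
  rw [h1]
  unfold gaussSum
  symm
  refine Finset.sum_bij' (fun (x : ZMod c.r) _ => x.val) (fun (a : ℕ) _ => (a : ZMod c.r))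
    ?_ ?_ ?_ ?_ ?_
  · intro x _
    exact Finset.mem_range.2 (ZMod.val_lt x)
  · intro a _
    exact Finset.mem_univ _
  · intro x _
    exact ZMod.natCast_zmod_val x
  · intro a ha
    exact ZMod.val_natCast_of_lt (Finset.mem_range.1 ha)
  · intro x _
    rw [AddChar.mulShift_apply]
    have e1 : c.ev x.val = c.χ x := by
      unfold PCh.ev
      rw [ZMod.natCast_zmod_val]
    rw [e1]
    congr 1
    have e2 : -(n : ZMod c.r) * x = ((-((x.val : ℤ) * n) : ℤ) : ZMod c.r) := by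
      push_cast
      rw [ZMod.natCast_zmod_val]
      ring
    rw [e2, ZMod.stdAddChar_coe]
    unfold ex
    congr 1
    push_cast
    ring

private theorem gsn_WEX (c : PCh) (n : ℕ) :
    ∑ a ∈ (range c.r).filter (fun a => Nat.Coprime a c.r), c.ev a * ex (-((a : ℝ) * n / c.r)) =
      (starRingEnd ℂ) (c.ev n) * (starRingEnd ℂ) (ta c c.r) := by
  have h1 := gs_WEX c 1
  have h2 := gs_WEX c n
  rw [gaussSum_mulShift_of_isPrimitive _ c.prim] at h1 h2
  have h3 : (starRingEnd ℂ) (ta c c.r) =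
      ∑ a ∈ (range c.r).filter (fun a => Nat.Coprime a c.r),
        c.ev a * ex (-((a : ℝ) * (1 : ℕ) / c.r)) := by
    unfold ta
    rw [map_sum]
    refine Finset.sum_congr rfl fun a _ => ?_
    rw [map_mul, Complex.conj_conj, conj_ex_WEX, Nat.cast_one, mul_one]
  have h4 : (starRingEnd ℂ) (c.ev n) = c.χ⁻¹ (n : ZMod c.r) := MulChar.star_apply' c.χ _
  rw [h2, h3, h1, h4, ← mul_assoc, ← map_mul]
  congr 2
  push_cast
  ring

private theorem inner_WEX (hR : Pool.Agent.Helper23.GK.StRam) (c : PCh) (s n : ℕ) (hs : 1 ≤ s)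
    (h : Nat.Coprime s c.r) :
    ∑ a ∈ (range (c.r * s)).filter (fun a => Nat.Coprime a (c.r * s)),
      c.ev a * ex (-((a : ℝ) * n / ((c.r * s : ℕ) : ℝ))) =
      c.ev s * ((cR s n : ℤ) : ℂ) * ((starRingEnd ℂ) (c.ev n) * (starRingEnd ℂ) (ta c c.r)) := by
  have hr : 0 < c.r := Nat.pos_of_ne_zero c.hr
  have hm : 0 < c.r * s := Nat.mul_pos hr hs
  have hR0 : (c.r : ℝ) ≠ 0 := by exact_mod_cast hr.ne'
  have hs0 : (s : ℝ) ≠ 0 := by exact_mod_cast (show s ≠ 0 by omega)
  rw [crt_WEX c.r s hr hs h.symm (fun b => c.ev b * ex (-((b : ℝ) * n / ((c.r * s : ℕ) : ℝ))))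
    (by
      intro b
      rw [ev_mod_WEX c (c.r * s) (Dvd.intro _ rfl)]
      congr 1
      rw [mod_real_WEX (c.r * s) hm b n, ex_nnat_WEX])]
  rw [← ram_WEX hR s n hs, ← gsn_WEX c n, Finset.mul_sum, Finset.sum_comm, ]
  rw [Finset.mul_sum]
  rw [Finset.sum_comm]
  refine Finset.sum_congr rfl fun b₁ _ => ?_
  rw [Finset.sum_mul]
  refine Finset.sum_congr rfl fun b₂ _ => ?_
  rw [ev_crt_WEX c s b₁ b₂]
  have h2 : -(((b₁ * s + b₂ * c.r : ℕ) : ℝ) * n / ((c.r * s : ℕ) : ℝ)) =
      -((b₁ : ℝ) * n / c.r) + -((b₂ : ℝ) * n / s) := by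
    push_cast
    field_simp
    ring
  rw [h2, ex_add_WEX]
  ring

theorem hWex : StTa1 → Pool.Agent.Helper23.MV.StTav → Pool.Agent.Helper23.GK.StRam → StWex := by
  intro hT hV hR c Q n
  unfold wt sw
  rw [Complex.ofReal_sum, Finset.mul_sum]
  refine Finset.sum_congr rfl fun s hs => ?_
  rw [Finset.mem_filter, Finset.mem_Icc] at hs
  obtain ⟨⟨hs1, _⟩, hco⟩ := hs
  have hr : 0 < c.r := Nat.pos_of_ne_zero c.hr
  have e1 : ∑ a ∈ (range (c.r * s)).filter (fun a => Nat.Coprime a (c.r * s)),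
      kap c (c.r * s) a * ex (-((a : ℝ) * n / ((c.r * s : ℕ) : ℝ))) =
      ta c (c.r * s) / (Nat.totient (c.r * s) : ℂ) *
        ∑ a ∈ (range (c.r * s)).filter (fun a => Nat.Coprime a (c.r * s)),
          c.ev a * ex (-((a : ℝ) * n / ((c.r * s : ℕ) : ℝ))) := by
    rw [Finset.mul_sum]
    refine Finset.sum_congr rfl fun a _ => ?_
    unfold kap
    ring
  rw [e1]
  by_cases hsq : Squarefree s
  · rw [inner_WEX hR c s n hs1 hco, hT.1 c s hs1 hsq hco, Nat.totient_mul hco.symm]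
    have e2 := abs_WEX c s hco
    have e3 : ta c c.r * (starRingEnd ℂ) (ta c c.r) = (c.r : ℂ) := by
      rw [Complex.mul_conj, Complex.normSq_eq_norm_sq, hT.2.1 c]
      norm_num
    have f1 : (Nat.totient c.r : ℂ) ≠ 0 := by
      exact_mod_cast (Nat.totient_pos.2 hr).ne'
    have f2 : (Nat.totient s : ℂ) ≠ 0 := by
      exact_mod_cast (Nat.totient_pos.2 (show 0 < s by omega)).ne'
    have e4 : (starRingEnd ℂ) (c.ev s) * ((moebius s : ℤ) : ℂ) * ta c c.r /
        ((Nat.totient c.r * Nat.totient s : ℕ) : ℂ) *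
        (c.ev s * ((cR s n : ℤ) : ℂ) * ((starRingEnd ℂ) (c.ev n) * (starRingEnd ℂ) (ta c c.r))) =
        (c.ev s * (starRingEnd ℂ) (c.ev s)) * (ta c c.r * (starRingEnd ℂ) (ta c c.r)) *
          (((moebius s : ℤ) : ℂ) * ((cR s n : ℤ) : ℂ) * (starRingEnd ℂ) (c.ev n)) /
          ((Nat.totient c.r * Nat.totient s : ℕ) : ℂ) := by ring
    rw [e4, e2, e3]
    push_cast
    field_simp
  · have hmu : (moebius s : ℤ) = 0 := ArithmeticFunction.moebius_eq_zero_of_not_squarefree hsq
    have hta : ta c (c.r * s) = 0 := by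
      by_contra h0
      have h1 := (hV c (c.r * s) (Nat.mul_pos hr hs1).ne' (Dvd.intro _ rfl) h0).1
      rw [Nat.mul_div_cancel_left _ hr] at h1
      exact hsq h1
    rw [hta, hmu]
    push_cast
    ring

end Pool.Agent.Helper90.PB
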